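import Pool.Agent.Helper64.VZ.Defs

/-!
# Points in projective coordinates, one of which is `1`

`chart`: the comparison with the affine coordinates of `Pool/Agent/Helper64/VZ/Defs.lean` after a permutation of the coordinates.
-/

set_option autoImplicit false

namespace Pool.Agent.Chart

open NumberField IntermediateField Pool.Agent.Helper64.Vojta

universe u

variable {k : Type u} [Field k] [NumberField k] {N : ℕ}

noncomputable def fld (x : Fin N → AlgebraicClosure k) : IntermediateField k (AlgebraicClosure k) :=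
  adjoin k (Set.range x)

instance numberField_fld (x : Fin N → AlgebraicClosure k) : NumberField (fld x) := by
  have : FiniteDimensional k (fld x) :=
    finiteDimensional_adjoin fun x _ => Algebra.IsIntegral.isIntegral x
  have h0 : CharZero (fld x) := charZero_of_injective_algebraMap (algebraMap k (fld x)).injective
  have h1 : FiniteDimensional ℚ (fld x) := Module.Finite.trans k (fld x)
  exact { to_charZero := h0, to_finiteDimensional := h1 }

noncomputable def dg (x : Fin N → AlgebraicClosure k) : ℕ := Module.finrank k (fld x)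

noncomputable def crd (x : Fin N → AlgebraicClosure k) : Fin N → fld x :=
  fun i => ⟨x i, subset_adjoin k _ (Set.mem_range_self i)⟩

noncomputable def val (ℓ : Fin N → k) (x : Fin N → AlgebraicClosure k) : fld x :=
  ∑ j, algebraMap k (fld x) (ℓ j) * crd x j

noncomputable def hgt (x : Fin N → AlgebraicClosure k) : ℝ := Height.logHeight (crd x) / dg x

noncomputable def lam (ℓ : Fin N → k) (ν : Pl k) (x : Fin N → AlgebraicClosure k) : ℝ :=
  (∑ w ∈ above (fld x) ν, (Real.log (sn w (crd x)) - Real.log (nv w (val ℓ x)))) / dg x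

/-- everything over an arbitrary field of definition -/
noncomputable def H (E : IntermediateField k (AlgebraicClosure k)) [NumberField E] (z : Fin N → E) : ℝ :=
  Height.logHeight z / Module.finrank k E

noncomputable def V (E : IntermediateField k (AlgebraicClosure k)) (ℓ : Fin N → k) (z : Fin N → E) : E :=
  ∑ j, algebraMap k E (ℓ j) * z j

noncomputable def Lm (E : IntermediateField k (AlgebraicClosure k)) [NumberField E] (ℓ : Fin N → k) (ν : Pl k)
    (z : Fin N → E) : ℝ :=
  (∑ w ∈ above E ν, (Real.log (sn w z) - Real.log (nv w (V E ℓ z)))) / Module.finrank k E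

theorem H_congr (E E' : IntermediateField k (AlgebraicClosure k)) [NumberField E] [NumberField E'] (h : E = E')
    (z : Fin N → E) (z' : Fin N → E') (hz : ∀ i, (z i : AlgebraicClosure k) = z' i) : H E z = H E' z' := by
  subst h
  have : z = z' := funext fun i => Subtype.ext (hz i)
  rw [this]

theorem V_congr (E E' : IntermediateField k (AlgebraicClosure k)) (h : E = E') (ℓ : Fin N → k)
    (z : Fin N → E) (z' : Fin N → E') (hz : ∀ i, (z i : AlgebraicClosure k) = z' i) : V E ℓ z = 0 ↔ V E' ℓ z' = 0 := by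
  subst h
  have : z = z' := funext fun i => Subtype.ext (hz i)
  rw [this]

theorem Lm_congr (E E' : IntermediateField k (AlgebraicClosure k)) [NumberField E] [NumberField E'] (h : E = E')
    (ℓ : Fin N → k) (ν : Pl k) (z : Fin N → E) (z' : Fin N → E')
    (hz : ∀ i, (z i : AlgebraicClosure k) = z' i) : Lm E ℓ ν z = Lm E' ℓ ν z' := by
  subst h
  have : z = z' := funext fun i => Subtype.ext (hz i)
  rw [this]

theorem H_perm (E : IntermediateField k (AlgebraicClosure k)) [NumberField E] (z : Fin N → E)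
    (e : Equiv.Perm (Fin N)) : H E (z ∘ e) = H E z := by
  unfold H
  rw [Height.logHeight_comp_equiv]

theorem V_perm (E : IntermediateField k (AlgebraicClosure k)) (ℓ : Fin N → k) (z : Fin N → E)
    (e : Equiv.Perm (Fin N)) : V E (ℓ ∘ e) (z ∘ e) = V E ℓ z := by
  unfold V
  exact Equiv.sum_comp e fun j => algebraMap k E (ℓ j) * z j

theorem sn_perm (E : IntermediateField k (AlgebraicClosure k)) [NumberField E] (w : Pl E) (z : Fin N → E)
    (e : Equiv.Perm (Fin N)) : sn w (z ∘ e) = sn w z := by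
  unfold sn
  exact Equiv.iSup_comp (g := fun i => nv w (z i)) e

theorem Lm_perm (E : IntermediateField k (AlgebraicClosure k)) [NumberField E] (ℓ : Fin N → k) (ν : Pl k)
    (z : Fin N → E) (e : Equiv.Perm (Fin N)) : Lm E (ℓ ∘ e) ν (z ∘ e) = Lm E ℓ ν z := by
  unfold Lm
  rw [V_perm]
  simp only [sn_perm]

/-- affine coordinates for a point with `x j₀ = 1` -/
def aff (x : Fin (N + 1) → AlgebraicClosure k) (j₀ : Fin (N + 1)) : Fin N → AlgebraicClosure k :=
  fun i => x (Equiv.swap 0 j₀ i.succ)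

theorem cons_aff (x : Fin (N + 1) → AlgebraicClosure k) (j₀ : Fin (N + 1)) (h : x j₀ = 1) :
    (Fin.cons 1 (aff x j₀) : Fin (N + 1) → AlgebraicClosure k) = x ∘ Equiv.swap 0 j₀ := by
  funext i
  refine Fin.cases ?_ (fun i => ?_) i
  · show 1 = x (Equiv.swap 0 j₀ 0)
    rw [Equiv.swap_apply_left, h]
  · rfl

theorem fld_aff (x : Fin (N + 1) → AlgebraicClosure k) (j₀ : Fin (N + 1)) (h : x j₀ = 1) :
    Pool.Agent.VZ.fld (aff x j₀) = fld x := by
  unfold Pool.Agent.VZ.fld fld
  apply le_antisymm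
  · rw [adjoin_le_iff]
    rintro _ ⟨i, rfl⟩
    exact subset_adjoin k _ (Set.mem_range_self _)
  · rw [adjoin_le_iff]
    rintro _ ⟨i, rfl⟩
    have h1 : x i = (Fin.cons 1 (aff x j₀) : Fin (N + 1) → AlgebraicClosure k) (Equiv.swap 0 j₀ i) := by
      rw [cons_aff x j₀ h]
      show x i = x (Equiv.swap 0 j₀ (Equiv.swap 0 j₀ i))
      rw [Equiv.swap_apply_self]
    rw [h1]
    refine Fin.cases ?_ (fun a => ?_) (Equiv.swap 0 j₀ i)
    · exact one_mem (adjoin k _)
    · exact subset_adjoin k _ (Set.mem_range_self a)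

theorem crd_aff (x : Fin (N + 1) → AlgebraicClosure k) (j₀ : Fin (N + 1)) (h : x j₀ = 1) (i : Fin (N + 1)) :
    ((Pool.Agent.VZ.crd (aff x j₀) i : Pool.Agent.VZ.fld (aff x j₀)) : AlgebraicClosure k) =
      (crd x ∘ Equiv.swap 0 j₀) i := by
  have h1 : ((Pool.Agent.VZ.crd (aff x j₀) i : Pool.Agent.VZ.fld (aff x j₀)) : AlgebraicClosure k) =
      (Fin.cons 1 (aff x j₀) : Fin (N + 1) → AlgebraicClosure k) i := by
    refine Fin.cases ?_ (fun a => ?_) i
    · rfl
    · rfl
  rw [h1, cons_aff x j₀ h]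
  rfl

theorem dg_aff (x : Fin (N + 1) → AlgebraicClosure k) (j₀ : Fin (N + 1)) (h : x j₀ = 1) :
    Pool.Agent.VZ.dg (aff x j₀) = dg x := by
  unfold Pool.Agent.VZ.dg dg
  rw [fld_aff x j₀ h]

theorem hgt_aff (x : Fin (N + 1) → AlgebraicClosure k) (j₀ : Fin (N + 1)) (h : x j₀ = 1) :
    Pool.Agent.VZ.hgt (aff x j₀) = hgt x := by
  have h1 : Pool.Agent.VZ.hgt (aff x j₀) = H _ (Pool.Agent.VZ.crd (aff x j₀)) := rfl
  have h2 : hgt x = H _ (crd x) := rfl
  rw [h1, h2, H_congr _ _ (fld_aff x j₀ h) _ _ (crd_aff x j₀ h), H_perm]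

theorem val_aff (x : Fin (N + 1) → AlgebraicClosure k) (j₀ : Fin (N + 1)) (h : x j₀ = 1) (ℓ : Fin (N + 1) → k) :
    ∑ j, algebraMap k (Pool.Agent.VZ.fld (aff x j₀)) ((ℓ ∘ Equiv.swap 0 j₀) j) * Pool.Agent.VZ.crd (aff x j₀) j = 0 ↔
      val ℓ x = 0 := by
  have h1 := V_congr _ _ (fld_aff x j₀ h) (ℓ ∘ Equiv.swap 0 j₀) _ _ (crd_aff x j₀ h)
  rw [V_perm] at h1
  exact h1

theorem lam_aff {q : ℕ} (x : Fin (N + 1) → AlgebraicClosure k) (j₀ : Fin (N + 1)) (h : x j₀ = 1)
    (ℓ : Fin q → Fin (N + 1) → k) (S : Finset (Pl k)) :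
    Pool.Agent.VZ.lam (fun i => ℓ i ∘ Equiv.swap 0 j₀) S (aff x j₀) = ∑ ν ∈ S, ∑ i, lam (ℓ i) ν x := by
  have h1 : Pool.Agent.VZ.lam (fun i => ℓ i ∘ Equiv.swap 0 j₀) S (aff x j₀) =
      ∑ ν ∈ S, ∑ i, Lm _ (ℓ i ∘ Equiv.swap 0 j₀) ν (Pool.Agent.VZ.crd (aff x j₀)) := by
    unfold Pool.Agent.VZ.lam Lm
    rw [Finset.sum_div]
    refine Finset.sum_congr rfl fun ν _ => ?_
    rw [← Finset.sum_div]
    congr 1
    rw [Finset.sum_comm]
    rfl
  rw [h1]
  refine Finset.sum_congr rfl fun ν _ => Finset.sum_congr rfl fun i _ => ?_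
  rw [Lm_congr _ _ (fld_aff x j₀ h) _ _ _ _ (crd_aff x j₀ h), Lm_perm]
  rfl

end Pool.Agent.Chart
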