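import Pool.Agent.Helper16.FIN.Chart
import Pool.Agent.Helper64.GS.Dim

/-!
# FIN: from affine to projective points

`H` is the theorem for the points with `x 0 = 1` of all closed subsets of dimension at most `n`.
-/

set_option autoImplicit false

namespace Pool.Agent.Chart

open NumberField IntermediateField Pool.Agent.Helper64.Vojta Pool.Agent.GS MvPolynomial

universe u

theorem homog_rename {k₀ : Type u} [Field k₀] {N : ℕ} (I : Set (MvPolynomial (Fin (N + 1)) k₀)) (hI : Homog I)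
    (e : Equiv.Perm (Fin (N + 1))) : Homog (rename e '' I) := by
  rintro _ ⟨f, hf, rfl⟩
  obtain ⟨d, hd⟩ := hI f hf
  exact ⟨d, hd.rename_isHomogeneous⟩

theorem dim_rename {k₀ : Type u} [Field k₀] {N n : ℕ} (I : Set (MvPolynomial (Fin (N + 1)) k₀)) (hD : Dim k₀ I n)
    (e : Equiv.Perm (Fin (N + 1))) : Dim k₀ (rename e '' I) n := by
  intro K _ _ y hy
  have h1 : OnX I (y ∘ e) := by
    intro f hf
    have h2 := hy _ ⟨f, hf, rfl⟩
    rw [aeval_rename] at h2
    exact h2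
  have h2 : Rat (y ∘ e) = Rat y := by
    ext z
    constructor
    · rintro ⟨a, b, rfl⟩
      exact ⟨e a, e b, rfl⟩
    · rintro ⟨a, b, rfl⟩
      exact ⟨e.symm a, e.symm b, by simp⟩
  rw [← h2]
  exact hD K _ h1

theorem proj_of_aff {k₀ : Type u} [Field k₀] {N n r q : ℕ}
    (H : ∀ I : Set (MvPolynomial (Fin (N + 1)) k₀), Homog I → Dim k₀ I n →
      ∃ Φ : MvPolynomial (Fin q × Fin (N + 1)) k₀, Φ ≠ 0 ∧
        ∀ (k : Type u) [Field k] [NumberField k] [Algebra k₀ k] (ℓ : Fin q → Fin (N + 1) → k),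
          aeval (fun p : Fin q × Fin (N + 1) => ℓ p.1 p.2) Φ ≠ 0 → ∀ S : Finset (Pl k), ∃ δ : ℝ, 0 < δ ∧ ∃ C : ℝ,
            ∀ y : Fin N → AlgebraicClosure k,
              (∀ f ∈ I, aeval (Fin.cons 1 y : Fin (N + 1) → AlgebraicClosure k) f = 0) → VZ.dg y ≤ r →
              (∀ i, ∑ j, algebraMap k (VZ.fld y) (ℓ i j) * VZ.crd y j ≠ 0) →
              VZ.lam ℓ S y ≤ (q - δ) * VZ.hgt y + C)
    (I : Set (MvPolynomial (Fin (N + 1)) k₀)) (hI : Homog I) (hD : Dim k₀ I n) :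
    ∃ Φ : MvPolynomial (Fin q × Fin (N + 1)) k₀, Φ ≠ 0 ∧
      ∀ (k : Type u) [Field k] [NumberField k] [Algebra k₀ k] (ℓ : Fin q → Fin (N + 1) → k),
        aeval (fun p : Fin q × Fin (N + 1) => ℓ p.1 p.2) Φ ≠ 0 → ∀ S : Finset (Pl k), ∃ δ : ℝ, 0 < δ ∧ ∃ C : ℝ,
          ∀ x : Fin (N + 1) → AlgebraicClosure k, (∃ j, x j = 1) → (∀ f ∈ I, aeval x f = 0) → dg x ≤ r →
            (∀ i, val (ℓ i) x ≠ 0) → ∑ ν ∈ S, ∑ i, lam (ℓ i) ν x ≤ (q - δ) * hgt x + C := by
  classical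
  choose Φ hΦ h using fun j : Fin (N + 1) => H (rename (Equiv.swap 0 j) '' I) (homog_rename I hI _) (dim_rename I hD _)
  have hinj : ∀ j : Fin (N + 1), Function.Injective fun p : Fin q × Fin (N + 1) => (p.1, Equiv.swap 0 j p.2) := by
    intro j p p' hp
    rw [Prod.mk.injEq] at hp
    exact Prod.ext hp.1 ((Equiv.swap 0 j).injective hp.2)
  refine ⟨∏ j, rename (fun p : Fin q × Fin (N + 1) => (p.1, Equiv.swap 0 j p.2)) (Φ j),
    Finset.prod_ne_zero_iff.2 fun j _ h0 => hΦ j ?_, fun k _ _ _ ℓ hℓ S => ?_⟩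
  · rw [← map_zero (rename fun p : Fin q × Fin (N + 1) => (p.1, Equiv.swap 0 j p.2))] at h0
    exact rename_injective _ (hinj j) h0
  · rw [map_prod, Finset.prod_ne_zero_iff] at hℓ
    have h1 : ∀ j : Fin (N + 1), ∃ δ : ℝ, 0 < δ ∧ ∃ C : ℝ,
        ∀ x : Fin (N + 1) → AlgebraicClosure k, x j = 1 → (∀ f ∈ I, aeval x f = 0) → dg x ≤ r →
          (∀ i, val (ℓ i) x ≠ 0) → ∑ ν ∈ S, ∑ i, lam (ℓ i) ν x ≤ (q - δ) * hgt x + C := by
      intro j
      have h2 := hℓ j (Finset.mem_univ j)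
      rw [aeval_rename] at h2
      obtain ⟨δ, hδ, C, hC⟩ := h j k (fun i => ℓ i ∘ Equiv.swap 0 j) h2 S
      refine ⟨δ, hδ, C, fun x hx hX hd hD => ?_⟩
      have h3 := hC (aff x j) ?_ ?_ ?_
      · rw [lam_aff x j hx, hgt_aff x j hx] at h3
        exact h3
      · rintro _ ⟨f, hf, rfl⟩
        rw [cons_aff x j hx, aeval_rename, ← hX f hf]
        congr 2
        funext i
        show x (Equiv.swap 0 j (Equiv.swap 0 j i)) = x i
        rw [Equiv.swap_apply_self]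
      · rw [dg_aff x j hx]
        exact hd
      · intro i h0
        exact hD i ((val_aff x j hx (ℓ i)).1 h0)
    choose δ hδ C hC using h1
    have hne : (Finset.univ : Finset (Fin (N + 1))).Nonempty := ⟨0, Finset.mem_univ 0⟩
    refine ⟨Finset.univ.inf' hne δ, (Finset.lt_inf'_iff hne).2 fun j _ => hδ j, Finset.univ.sup' hne C, ?_⟩
    rintro x ⟨j, hj⟩ hX hd hDD
    refine (hC j x hj hX hd hDD).trans (add_le_add (mul_le_mul_of_nonneg_right ?_ ?_) (Finset.le_sup' C (Finset.mem_univ j)))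
    · have := Finset.inf'_le δ (Finset.mem_univ j)
      linarith
    · unfold hgt
      exact div_nonneg (Height.logHeight_nonneg _) (Nat.cast_nonneg _)

end Pool.Agent.Chart
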