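import Mathlib
import Pool.Agent.Helper16.FIN.Proj
import Pool.Agent.Helper16.FIN.Main

/-!
Vojta's inequality with a weaker constant, for all points of bounded degree on the complement of generic
hyperplane sections.

`X` is an irreducible closed subvariety of dimension `n ≥ 2` of the projective space `P^N` over a number
field `k₀`. It is given by its homogeneous prime ideal `P`; the transcendence degree of
`k₀[X_0, …, X_N] / P` is `n + 1`. `k` is a number field which contains `k₀`, `D` is the sum of `q`
hyperplane sections `ℓ i = 0` of `X`, where the linear forms `ℓ i` have coefficients in `k`, and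
`2 q ≥ 3 r n + 2`. Points are given by homogeneous coordinates in the algebraic closure of `k`, one of
which is `1`. `Pl`, `nv`, `sn` (in `Pool/Agent/Helper64/Vojta/Places.lean`) are the places, the normalised
absolute values and the maximum of the absolute values of the coordinates, `above` (in `OneSpace.lean`)
the set of places above a place.
-/

namespace Pool.Agent.Results.MP_71c16a_nt.AllPoints

open NumberField IntermediateField Pool.Agent.Helper64.Vojta

universe u

section

variable {k : Type u} [Field k] [NumberField k] {N : ℕ}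

/-- The field generated over `k` by the coordinates of the point. If one of them is `1`, this is the
residue field of the point. -/
noncomputable def fld (x : Fin N → AlgebraicClosure k) : IntermediateField k (AlgebraicClosure k) :=
  adjoin k (Set.range x)

/-- It is a number field. -/
instance numberField_fld (x : Fin N → AlgebraicClosure k) : NumberField (fld x) := by
  have : FiniteDimensional k (fld x) :=
    finiteDimensional_adjoin fun x _ => Algebra.IsIntegral.isIntegral x
  have h0 : CharZero (fld x) := charZero_of_injective_algebraMap (algebraMap k (fld x)).injective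
  have h1 : FiniteDimensional ℚ (fld x) := Module.Finite.trans k (fld x)
  exact { to_charZero := h0, to_finiteDimensional := h1 }

/-- The degree of the point over `k`. -/
noncomputable def dg (x : Fin N → AlgebraicClosure k) : ℕ := Module.finrank k (fld x)

/-- The coordinates as elements of the residue field. -/
noncomputable def crd (x : Fin N → AlgebraicClosure k) : Fin N → fld x :=
  fun i => ⟨x i, subset_adjoin k _ (Set.mem_range_self i)⟩

/-- The value of the linear form `ℓ` at the point. -/
noncomputable def val (ℓ : Fin N → k) (x : Fin N → AlgebraicClosure k) : fld x :=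
  ∑ j, algebraMap k (fld x) (ℓ j) * crd x j

/-- Logarithmic height, relative to `k`; `Height.logHeight` is Mathlib's height relative to the field of
the coordinates. -/
noncomputable def hgt (x : Fin N → AlgebraicClosure k) : ℝ := Height.logHeight (crd x) / dg x

/-- The Weil function, relative to `k`, of the hyperplane `ℓ = 0` at the place `ν` of `k`. -/
noncomputable def lam (ℓ : Fin N → k) (ν : Pl k) (x : Fin N → AlgebraicClosure k) : ℝ :=
  (∑ w ∈ above (fld x) ν, (Real.log (sn w (crd x)) - Real.log (nv w (val ℓ x)))) / dg x

end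

/-- Let `n ≥ 2` be the dimension of `X`, `r ≥ 2` and `2 q ≥ 3 r n + 2`. There is a nonzero polynomial `Φ`
over `k₀` in the coefficients of `q` linear forms with the following property. Let `k` be a number field
which contains `k₀`, let the `ℓ i` be linear forms over `k` with `Φ(ℓ) ≠ 0`, and let `D` be the sum of the
sections `ℓ i = 0` of `X`. Then for all `S` there are `δ > 0` and `C` such that
`∑_{ν ∈ S} λ_D(x,ν) ≤ (q - δ) h(x) + C` for all points `x` of `X` outside `D` of degree at most `r`
over `k`. -/
theorem result (k₀ : Type u) [Field k₀] [NumberField k₀] (N n r q : ℕ) (hn : 2 ≤ n) (hr : 2 ≤ r)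
    (hq : 3 * r * n + 2 ≤ 2 * q) (P : Ideal (MvPolynomial (Fin (N + 1)) k₀)) [P.IsPrime]
    (hhom : ∀ f ∈ P, ∀ d, MvPolynomial.homogeneousComponent d f ∈ P)
    (hP : Algebra.trdeg k₀ (MvPolynomial (Fin (N + 1)) k₀ ⧸ P) = n + 1) :
    ∃ Φ : MvPolynomial (Fin q × Fin (N + 1)) k₀, Φ ≠ 0 ∧
      ∀ (k : Type u) [Field k] [NumberField k] [Algebra k₀ k] (ℓ : Fin q → Fin (N + 1) → k),
      MvPolynomial.aeval (fun p : Fin q × Fin (N + 1) => ℓ p.1 p.2) Φ ≠ 0 →
      ∀ S : Finset (Pl k), ∃ δ : ℝ, 0 < δ ∧ ∃ C : ℝ,
        ∀ x : Fin (N + 1) → AlgebraicClosure k, (∃ j, x j = 1) →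
          (∀ f ∈ P, MvPolynomial.aeval x f = 0) → dg x ≤ r → (∀ i, val (ℓ i) x ≠ 0) →
          ∑ ν ∈ S, ∑ i, lam (ℓ i) ν x ≤ (q - δ) * hgt x + C := by
  obtain ⟨Φ, hΦ, h⟩ := Pool.Agent.Chart.proj_of_aff (r := r) (q := q)
    (fun I hI hD => Pool.Agent.FIN.fin_main hn hr hq I hI hD) (Pool.Agent.GS.hom P)
    (Pool.Agent.GS.homog_hom P) (Pool.Agent.GS.dim_le_hom P hhom hP)
  refine ⟨Φ, hΦ, fun k _ _ _ ℓ hℓ S => ?_⟩
  obtain ⟨δ, hδ, C, hC⟩ := h k ℓ hℓ S
  exact ⟨δ, hδ, C, fun x hx hX hd hD => hC x hx (fun f hf => hX f hf.1) hd hD⟩

end Pool.Agent.Results.MP_71c16a_nt.AllPoints
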