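import Pool.Agent.Helper77.GS.Cl
import Pool.Agent.Helper61.GS.GP

/-!
# FIN for all `X`, block LINE

The hyperplanes `ℓ i` do not all pass through one of `t + 2` points of a line, two of which are on `X`, if the `ℓ i` are generic and
`q > 2 n + t`. `count`: the coefficients `ℓ i j` are algebraic over `T` and the `ℓ i j`, `(i, j) ∈ P`: `q (N + 1) ≤ rk T + |P|`.
-/

set_option autoImplicit false

namespace Pool.Agent.FIN

open Pool.Agent.GS MvPolynomial

universe u

/-- Every hyperplane `ℓ i = 0` passes through `p`, `p'` or one of `t` points of the line `p p'`; `p`, `p'` are on `X`. -/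
def Line {k K : Type u} [Field k] [Field K] [Algebra k K] {N q : ℕ} (I : Set (MvPolynomial (Fin (N + 1)) k)) (t : ℕ)
    (ℓ : Fin q → Fin (N + 1) → K) : Prop :=
  ∃ (p p' : Fin (N + 1) → K) (τ : Fin t → K), p ≠ 0 ∧ p' ≠ 0 ∧ OnX I p ∧ OnX I p' ∧
    (∀ a, (fun j => p j + τ a * p' j) ≠ 0) ∧
    ∀ i, dt (ℓ i) p = 0 ∨ dt (ℓ i) p' = 0 ∨ ∃ a, dt (ℓ i) (fun j => p j + τ a * p' j) = 0

theorem rk_union {k K : Type u} [Field k] [Field K] [Algebra k K] (s s' : Set K) : rk k (s ∪ s') ≤ rk k s + rk k s' :=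
  (AlgebraicIndependent.matroid k K).eRk_union_le_eRk_add_eRk s s'

theorem count {k K : Type u} [Field k] [Field K] [Algebra k K] {N q t : ℕ} (ℓ : Fin q → Fin (N + 1) → K)
    (hind : AlgebraicIndependent k (fun p : Fin q × Fin (N + 1) => ℓ p.1 p.2)) (T : Set K) (hT : rk k T ≤ t)
    (P : Finset (Fin q × Fin (N + 1)))
    (h : ∀ i j, ℓ i j ∈ cl k (T ∪ (fun p : Fin q × Fin (N + 1) => ℓ p.1 p.2) '' P)) :
    q * (N + 1) ≤ t + P.card := by
  classical
  have h1 := rk_of_algInd _ hind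
  have h2 : (Set.univ : Set (Fin q × Fin (N + 1))).encard = ((q * (N + 1) : ℕ) : ℕ∞) := by
    rw [Set.encard_univ, ENat.card_eq_coe_fintype_card, Fintype.card_prod, Fintype.card_fin, Fintype.card_fin]
  have h3 : rk k (Set.range fun p : Fin q × Fin (N + 1) => ℓ p.1 p.2) ≤ (t : ℕ∞) + P.card := by
    refine (rk_le_of_subset (t := T ∪ (fun p : Fin q × Fin (N + 1) => ℓ p.1 p.2) '' P) ?_).trans ?_
    · rintro _ ⟨⟨i, j⟩, rfl⟩
      exact h i j
    · exact (rk_union _ _).trans (add_le_add hT (rk_image_le P _))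
  rw [h1, h2] at h3
  exact_mod_cast h3

/-- the coordinate `j` of a linear form which vanishes at `x`, `x j ≠ 0` -/
theorem cl_coord {k K : Type u} [Field k] [Field K] [Algebra k K] {N : ℕ} (s : Set K) (ℓ x : Fin (N + 1) → K)
    (j : Fin (N + 1)) (hj : x j ≠ 0) (hx : dt ℓ x = 0) (hs : ∀ j', x j' / x j ∈ cl k s)
    (hl : ∀ j', j' ≠ j → ℓ j' ∈ cl k s) : ℓ j ∈ cl k s := by
  classical
  have h1 : ℓ j = -∑ j' ∈ Finset.univ.erase j, ℓ j' * (x j' / x j) := by
    unfold dt at hx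
    rw [← Finset.add_sum_erase _ _ (Finset.mem_univ j)] at hx
    have h3 : ∑ j' ∈ Finset.univ.erase j, ℓ j' * (x j' / x j) = (∑ j' ∈ Finset.univ.erase j, ℓ j' * x j') / x j := by
      rw [Finset.sum_div]
      exact Finset.sum_congr rfl fun j' _ => (mul_div_assoc _ _ _).symm
    rw [h3, eq_neg_iff_add_eq_zero]
    field_simp
    rw [mul_zero]
    exact hx
  rw [h1]
  exact cl_neg (cl_sum _ _ fun j' hj' => cl_mul (hl j' (Finset.ne_of_mem_erase hj')) (hs j'))

theorem not_line {k K : Type u} [Field k] [Field K] [Algebra k K] {N n q : ℕ}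
    (I : Set (MvPolynomial (Fin (N + 1)) k)) (hD : Dim k I n) (t : ℕ) (hq : 2 * n + t < q)
    (ℓ : Fin q → Fin (N + 1) → K) (hind : AlgebraicIndependent k (fun p : Fin q × Fin (N + 1) => ℓ p.1 p.2)) :
    ¬ Line I t ℓ := by
  classical
  rintro ⟨p, p', τ, hp, hp', hX, hX', hτ, hall⟩
  obtain ⟨a, ha⟩ := Function.ne_iff.1 hp
  obtain ⟨a', ha'⟩ := Function.ne_iff.1 hp'
  rw [Pi.zero_apply] at ha ha'
  have hτ2 : ∀ b, ∃ j, p j + τ b * p' j ≠ 0 := fun b => by
    obtain ⟨j, hj⟩ := Function.ne_iff.1 (hτ b)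
    exact ⟨j, hj⟩
  choose c hc using hτ2
  set τ' : Fin t → K := fun b => τ b * (p' a' / p a) with hτ'
  set T : Set K := Rat p ∪ Rat p' ∪ τ' '' (Finset.univ : Finset (Fin t)) with hT
  have hTr : rk k T ≤ ((n + n + t : ℕ) : ℕ∞) := by
    have h1 : rk k (Rat p ∪ Rat p') ≤ (n : ℕ∞) + n := (rk_union _ _).trans (add_le_add (hD K p hX) (hD K p' hX'))
    have h2 : rk k (τ' '' (Finset.univ : Finset (Fin t))) ≤ (t : ℕ∞) := by
      refine (rk_image_le _ _).trans (le_of_eq ?_)
      rw [Finset.card_univ, Fintype.card_fin]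
    have h3 : rk k T ≤ (n : ℕ∞) + n + t := (rk_union _ _).trans (add_le_add h1 h2)
    rw [Nat.cast_add, Nat.cast_add]
    exact h3
  -- the coordinate which is computed
  have hsel : ∀ i, ∃ (x : Fin (N + 1) → K) (j : Fin (N + 1)), x j ≠ 0 ∧ dt (ℓ i) x = 0 ∧ ∀ j', x j' / x j ∈ cl k T := by
    intro i
    have hTp : ∀ j', p j' / p a ∈ cl k T := fun j' => subset_cl _ (Or.inl (Or.inl ⟨j', a, rfl⟩))
    have hTp' : ∀ j', p' j' / p' a' ∈ cl k T := fun j' => subset_cl _ (Or.inl (Or.inr ⟨j', a', rfl⟩))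
    rcases hall i with h | h | ⟨b, h⟩
    · exact ⟨p, a, ha, h, hTp⟩
    · exact ⟨p', a', ha', h, hTp'⟩
    · refine ⟨_, c b, hc b, h, fun j' => ?_⟩
      have hf : ∀ j, (p j + τ b * p' j) / p a ∈ cl k T := by
        intro j
        have h1 : (p j + τ b * p' j) / p a = p j / p a + τ' b * (p' j / p' a') := by
          rw [hτ']
          field_simp
        rw [h1]
        exact cl_add (hTp j) (cl_mul (subset_cl _ (Or.inr ⟨b, Finset.mem_coe.2 (Finset.mem_univ b), rfl⟩)) (hTp' j))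
      have h2 : (p j' + τ b * p' j') / (p (c b) + τ b * p' (c b)) =
          ((p j' + τ b * p' j') / p a) / ((p (c b) + τ b * p' (c b)) / p a) := by
        rw [div_div_div_cancel_right₀ ha]
      show (p j' + τ b * p' j') / (p (c b) + τ b * p' (c b)) ∈ _
      rw [h2]
      exact cl_div (hf j') (hf (c b))
  choose x j hx h0 hr using hsel
  have h := count ℓ hind T hTr ((Finset.univ : Finset (Fin q × Fin (N + 1))).filter fun p => p.2 ≠ j p.1) (by
    intro i l
    have hmem : ∀ l', l' ≠ j i → ℓ i l' ∈ cl k (T ∪ (fun p : Fin q × Fin (N + 1) => ℓ p.1 p.2) ''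
        ((Finset.univ : Finset (Fin q × Fin (N + 1))).filter fun p => p.2 ≠ j p.1 : Finset _)) := by
      intro l' hl'
      refine subset_cl _ (Or.inr ⟨(i, l'), ?_, rfl⟩)
      rw [Finset.mem_coe, Finset.mem_filter]
      exact ⟨Finset.mem_univ _, hl'⟩
    by_cases hl : l = j i
    · subst hl
      exact cl_coord _ (ℓ i) (x i) (j i) (hx i) (h0 i) (fun j' => cl_mono Set.subset_union_left (hr i j')) hmem
    · exact hmem l hl)
  have hcard : ((Finset.univ : Finset (Fin q × Fin (N + 1))).filter fun p => p.2 ≠ j p.1).card = q * N := by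
    rw [Finset.card_filter, ← Finset.univ_product_univ, Finset.sum_product]
    have : ∀ i : Fin q, ∑ l : Fin (N + 1), (if (i, l).2 ≠ j (i, l).1 then 1 else 0) = N := by
      intro i
      show ∑ l : Fin (N + 1), (if l ≠ j i then 1 else 0) = N
      rw [← Finset.card_filter, Finset.filter_ne', Finset.card_erase_of_mem (Finset.mem_univ _), Finset.card_univ,
        Fintype.card_fin]
      rfl
    rw [Finset.sum_congr rfl fun i _ => this i, Finset.sum_const, Finset.card_univ, Fintype.card_fin, smul_eq_mul]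
  rw [hcard] at h
  have h2 : q * (N + 1) = q * N + q := by ring
  omega

end Pool.Agent.FIN
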