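import Pool.Agent.Helper16.FIN.Line

/-!
# FIN for all `X`, block LINE: elimination
-/

set_option autoImplicit false

namespace Pool.Agent.FIN

open Pool.Agent.GS MvPolynomial

universe u

/-- the `t + 2` points -/
private def pt16 {K : Type u} [Field K] {N t : ℕ} (p p' : Fin (N + 1) → K) (τ : Fin t → K) :
    Option (Option (Fin t)) → Fin (N + 1) → K
  | none => p
  | some none => p'
  | some (some a) => fun j => p j + τ a * p' j

/-- the unknowns -/
private abbrev Un16 (N t : ℕ) : Type :=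
  Fin (N + 1) ⊕ (Fin (N + 1) ⊕ (Fin t ⊕ (Option (Option (Fin t)) × Fin (N + 1))))

private noncomputable def xp16 (k : Type u) [Field k] (q N t : ℕ) :
    Option (Option (Fin t)) → Fin (N + 1) → MvPolynomial ((Fin q × Fin (N + 1)) ⊕ Un16 N t) k
  | none => fun j => X (Sum.inr (Sum.inl j))
  | some none => fun j => X (Sum.inr (Sum.inr (Sum.inl j)))
  | some (some a) => fun j => X (Sum.inr (Sum.inl j)) +
      X (Sum.inr (Sum.inr (Sum.inr (Sum.inl a)))) * X (Sum.inr (Sum.inr (Sum.inl j)))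

private theorem aeval_xp16 {k K : Type u} [Field k] [Field K] [Algebra k K] {q N t : ℕ} (s : Fin q × Fin (N + 1) → K)
    (u : Un16 N t → K) (b : Option (Option (Fin t))) (j : Fin (N + 1)) :
    aeval (Sum.elim s u) (xp16 k q N t b j) = pt16 (fun j => u (Sum.inl j)) (fun j => u (Sum.inr (Sum.inl j)))
      (fun a => u (Sum.inr (Sum.inr (Sum.inl a)))) b j := by
  rcases b with _ | _ | a
  · exact aeval_X _ _
  · exact aeval_X _ _
  · show aeval (Sum.elim s u) (X (Sum.inr (Sum.inl j)) +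
      X (Sum.inr (Sum.inr (Sum.inr (Sum.inl a)))) * X (Sum.inr (Sum.inr (Sum.inl j)))) = _
    rw [map_add, map_mul, aeval_X, aeval_X, aeval_X]
    rfl

theorem line_phi {k : Type u} [Field k] {N n q : ℕ} (I : Set (MvPolynomial (Fin (N + 1)) k)) (hD : Dim k I n) (t : ℕ)
    (hq : 2 * n + t < q) : ∃ Φ : MvPolynomial (Fin q × Fin (N + 1)) k, Φ ≠ 0 ∧
      ∀ (K : Type u) [Field K] [Algebra k K] (ℓ : Fin q → Fin (N + 1) → K), Line I t ℓ →
        aeval (fun p : Fin q × Fin (N + 1) => ℓ p.1 p.2) Φ = 0 := by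
  classical
  have h1 : ∀ f : Fin q → Option (Option (Fin t)), ∃ Φ : MvPolynomial (Fin q × Fin (N + 1)) k, Φ ≠ 0 ∧
      ∀ (K : Type u) [Field K] [Algebra k K] (ℓ : Fin q → Fin (N + 1) → K) (p p' : Fin (N + 1) → K) (τ : Fin t → K),
        OnX I p → OnX I p' → (∀ b, pt16 p p' τ b ≠ 0) → (∀ i, dt (ℓ i) (pt16 p p' τ (f i)) = 0) →
        aeval (fun p : Fin q × Fin (N + 1) => ℓ p.1 p.2) Φ = 0 := by
    intro f
    obtain ⟨Φ, hΦ, hΦ'⟩ := elim (k := k) (σ := Fin q × Fin (N + 1)) (τ := Un16 N t)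
      ({g | ∃ e ∈ I, g = rename (fun a => Sum.inr (Sum.inl a)) e} ∪
        {g | ∃ e ∈ I, g = rename (fun a => Sum.inr (Sum.inr (Sum.inl a))) e} ∪
        {g | ∃ i, g = ∑ j, X (Sum.inl (i, j)) * xp16 k q N t (f i) j} ∪
        {g | ∃ b, g = ∑ j, X (Sum.inr (Sum.inr (Sum.inr (Sum.inr (b, j))))) * xp16 k q N t b j - 1}) (by
        intro L _ _ a u ha hall
        have hne : ∀ b, pt16 (fun j => u (Sum.inl j)) (fun j => u (Sum.inr (Sum.inl j)))
            (fun a => u (Sum.inr (Sum.inr (Sum.inl a)))) b ≠ 0 := by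
          intro b h0
          have h2 := hall _ (Or.inr ⟨b, rfl⟩)
          rw [map_sub, map_sum, map_one, Finset.sum_eq_zero, zero_sub, neg_eq_zero] at h2
          · exact one_ne_zero h2
          · intro j _
            rw [map_mul, aeval_xp16, congrFun h0 j, Pi.zero_apply, mul_zero]
        refine not_line I hD t hq (fun i j => a (i, j)) ha ⟨fun j => u (Sum.inl j), fun j => u (Sum.inr (Sum.inl j)),
          fun a => u (Sum.inr (Sum.inr (Sum.inl a))), ?_, ?_, ?_, ?_, ?_, ?_⟩
        · exact hne none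
        · exact hne (some none)
        · intro e he
          have h2 := hall _ (Or.inl (Or.inl (Or.inl ⟨e, he, rfl⟩)))
          rw [aeval_rename] at h2
          exact h2
        · intro e he
          have h2 := hall _ (Or.inl (Or.inl (Or.inr ⟨e, he, rfl⟩)))
          rw [aeval_rename] at h2
          exact h2
        · exact fun a => hne (some (some a))
        · intro i
          have h2 := hall _ (Or.inl (Or.inr ⟨i, rfl⟩))
          have h3 : dt (fun j => a (i, j)) (pt16 (fun j => u (Sum.inl j)) (fun j => u (Sum.inr (Sum.inl j)))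
              (fun a => u (Sum.inr (Sum.inr (Sum.inl a)))) (f i)) = 0 := by
            rw [← h2, map_sum]
            unfold dt
            refine Finset.sum_congr rfl fun j _ => ?_
            rw [map_mul, aeval_xp16, aeval_X]
            rfl
          rcases hf : f i with _ | _ | b
          · rw [hf] at h3
            exact Or.inl h3
          · rw [hf] at h3
            exact Or.inr (Or.inl h3)
          · rw [hf] at h3
            exact Or.inr (Or.inr ⟨b, h3⟩))
    refine ⟨Φ, hΦ, fun K _ _ ℓ p p' τ hX hX' hne h0 => ?_⟩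
    have hj : ∀ b, ∃ j, pt16 p p' τ b j ≠ 0 := fun b => by
      obtain ⟨j, hj⟩ := Function.ne_iff.1 (hne b)
      exact ⟨j, hj⟩
    choose c hc using hj
    refine hΦ' K (fun p => ℓ p.1 p.2) (Sum.elim p (Sum.elim p' (Sum.elim τ fun bj =>
      if bj.2 = c bj.1 then (pt16 p p' τ bj.1 (c bj.1))⁻¹ else 0))) ?_
    rintro g (((⟨e, he, rfl⟩ | ⟨e, he, rfl⟩) | ⟨i, rfl⟩) | ⟨b, rfl⟩)
    · rw [aeval_rename]
      exact hX e he
    · rw [aeval_rename]
      exact hX' e he
    · rw [map_sum, ← h0 i]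
      unfold dt
      refine Finset.sum_congr rfl fun j _ => ?_
      rw [map_mul, aeval_xp16, aeval_X]
      rfl
    · rw [map_sub, map_sum, map_one, Finset.sum_eq_single (c b)]
      · rw [map_mul, aeval_xp16, aeval_X]
        show (if (b, c b).2 = c (b, c b).1 then (pt16 p p' τ (b, c b).1 (c (b, c b).1))⁻¹ else 0) * pt16 p p' τ b (c b) - 1 = 0
        rw [if_pos rfl, inv_mul_cancel₀ (hc b), sub_self]
      · intro j _ hj
        rw [map_mul, aeval_xp16, aeval_X]
        show (if (b, j).2 = c (b, j).1 then (pt16 p p' τ (b, j).1 (c (b, j).1))⁻¹ else 0) * _ = 0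
        rw [if_neg hj, zero_mul]
      · intro h
        exact absurd (Finset.mem_univ _) h
  choose Φ hΦ hΦ' using h1
  refine ⟨∏ f, Φ f, Finset.prod_ne_zero_iff.2 fun f _ => hΦ f, ?_⟩
  rintro K _ _ ℓ ⟨p, p', τ, hp, hp', hX, hX', hτ, hall⟩
  have hsel : ∀ i, ∃ b, dt (ℓ i) (pt16 p p' τ b) = 0 := by
    intro i
    rcases hall i with h | h | ⟨b, h⟩
    · exact ⟨none, h⟩
    · exact ⟨some none, h⟩
    · exact ⟨some (some b), h⟩
  choose f hf using hsel
  rw [map_prod]
  refine Finset.prod_eq_zero (Finset.mem_univ f) (hΦ' f K ℓ p p' τ hX hX' ?_ hf)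
  rintro (_ | _ | b)
  · exact hp
  · exact hp'
  · exact hτ b

end Pool.Agent.FIN
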